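import Pool.Agent.TFJ.Stmts

/-!
# Row MAT of squad TFJ (MP_bed68a_al): the graded ring of matrices, the trace
-/

set_option autoImplicit false

namespace Pool.Agent.TFJ.H49

open Pool.Agent.TFJ
open scoped BigOperators

/-- the matrices with all entries in `A` -/
def mats {S : Type} [Ring S] (A : AddSubgroup S) (n : ℕ) :
    AddSubgroup (Matrix (Fin n) (Fin n) S) where
  carrier := {X | ∀ i j, X i j ∈ A}
  add_mem' := fun {X Y} hX hY i j => A.add_mem (hX i j) (hY i j)
  zero_mem' := fun i j => A.zero_mem
  neg_mem' := fun {X} hX i j => A.neg_mem (hX i j)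

theorem mem_mats {S : Type} [Ring S] {A : AddSubgroup S} {n : ℕ}
    {X : Matrix (Fin n) (Fin n) S} : X ∈ mats A n ↔ ∀ i j, X i j ∈ A := Iff.rfl

theorem graded_mats {G S : Type} [Group G] [Ring S] {A : G → AddSubgroup S} (hA : Graded A)
    (n : ℕ) : Graded (fun g => mats (A g) n) where
  one := by
    intro i j
    by_cases h : i = j
    · rw [h, Matrix.one_apply_eq]
      exact hA.one
    · rw [Matrix.one_apply_ne h]
      exact (A 1).zero_mem
  mul := by
    intro g h X Y hX hY i j
    rw [Matrix.mul_apply]
    exact (A (g * h)).sum_mem fun l _ => hA.mul g h _ _ (hX i l) (hY l j)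
  span := by
    classical
    intro X
    choose c hc hs using hA.span
    have hc0 : ∀ s g, c s g ∈ A g := hc
    let C : G →₀ Matrix (Fin n) (Fin n) S :=
      ∑ i, ∑ j, (c (X i j)).mapRange (fun s => Matrix.single i j s) (by simp)
    have hC : ∀ g, C g = Matrix.of fun i j => c (X i j) g := by
      intro g
      ext a b
      simp only [C, Finsupp.finset_sum_apply, Finsupp.mapRange_apply, Matrix.sum_apply,
        Matrix.of_apply, Matrix.single_apply]
      rw [Finset.sum_eq_single a, Finset.sum_eq_single b]
      · simp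
      · intro j _ hj
        simp [hj]
      · simp
      · intro i _ hi
        simp [hi]
      · simp
    refine ⟨C, fun g i j => ?_, ?_⟩
    · rw [hC g]
      exact hc0 _ g
    · ext a b
      have h1 : (C.sum fun _ Y => Y) a b = C.sum fun _ Y => Y a b := by
        simp only [Finsupp.sum, Matrix.sum_apply]
      have h2 : ∀ s : Finset G, C.support ⊆ s → (c (X a b)).support ⊆ s →
          (C.sum fun _ Y => Y a b) = (c (X a b)).sum fun _ y => y := by
        intro s h3 h4
        rw [Finsupp.sum_of_support_subset C h3 _ (by intro i _; rfl),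
          Finsupp.sum_of_support_subset (c (X a b)) h4 _ (by intro i _; rfl)]
        refine Finset.sum_congr rfl fun g _ => ?_
        rw [hC g]
        rfl
      rw [h1, h2 _ Finset.subset_union_left Finset.subset_union_right, hs]
  indep := by
    intro c hc h0
    ext g a b
    have h1 := hA.indep (c.mapRange (fun Y : Matrix (Fin n) (Fin n) S => Y a b) rfl)
      (fun g => by
        rw [Finsupp.mapRange_apply]
        exact hc g a b)
      (by
        rw [Finsupp.sum_mapRange_index (by intro; rfl)]
        have h2 := congrFun (congrFun h0 a) b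
        simpa only [Finsupp.sum, Matrix.sum_apply, Matrix.zero_apply] using h2)
    have h2 := DFunLike.congr_fun h1 g
    simpa using h2

theorem trace_comm {S : Type} [Ring S] {n : ℕ} {X : Matrix (Fin n) (Fin n) S}
    (h : X ∈ Comm (Matrix (Fin n) (Fin n) S)) : Matrix.trace X ∈ Comm S := by
  unfold Comm at h
  induction h using AddSubgroup.closure_induction with
  | mem Z hZ =>
    obtain ⟨P, Q, rfl⟩ := hZ
    have e : Matrix.trace (P * Q - Q * P) = ∑ i, ∑ j, (P i j * Q j i - Q j i * P i j) := by
      rw [Matrix.trace_sub]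
      simp only [Matrix.trace, Matrix.diag, Matrix.mul_apply, Finset.sum_sub_distrib]
      rw [Finset.sum_comm (f := fun i j => Q j i * P i j)]
    rw [e]
    refine (Comm S).sum_mem fun i _ => (Comm S).sum_mem fun j _ => ?_
    exact AddSubgroup.subset_closure ⟨_, _, rfl⟩
  | zero =>
    rw [Matrix.trace_zero]
    exact (Comm S).zero_mem
  | add Y Z _ _ hY hZ =>
    rw [Matrix.trace_add]
    exact (Comm S).add_mem hY hZ
  | neg Y _ hY =>
    rw [Matrix.trace_neg]
    exact (Comm S).neg_mem hY

theorem mat : MatStmt := by
  intro G S _ _ A hA n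
  refine ⟨⟨_, graded_mats hA n, fun g X hX => ?_⟩, fun N X hX => ?_⟩
  · exact (A g).sum_mem fun i _ => hX i i
  · obtain ⟨Y, hY⟩ := hX
    refine ⟨Matrix.trace Y, ?_⟩
    have h := trace_comm hY
    rwa [Matrix.trace_sub, Matrix.trace_smul] at h

end Pool.Agent.TFJ.H49
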